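import Mathlib
import Pool.Agent.U35.RC.Stm

/-! Package E of project RC (helper35): existence of the structure with small cliques. -/

set_option autoImplicit false

namespace Pool.Agent.U312.RC.E

open Pool.Agent.U35.RC

theorem sft_lt {i j : ℕ} (h : Sft i j) : i < j := by
  obtain ⟨a, b, c, hab, hbc, rfl, rfl⟩ := h
  exact (Nat.pair_lt_pair_left b hab).trans (Nat.pair_lt_pair_right b hbc)

theorem sft_tri {i j l : ℕ} (h1 : Sft i j) (h2 : Sft j l) (h3 : Sft i l) : False := by
  obtain ⟨a, b, c, hab, hbc, h4, h5⟩ := h1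
  obtain ⟨a', b', c', hab', hbc', h6, h7⟩ := h2
  obtain ⟨a'', b'', c'', hab'', hbc'', h8, h9⟩ := h3
  have e1 := Nat.pair_eq_pair.1 (h5.symm.trans h6)
  have e2 := Nat.pair_eq_pair.1 (h4.symm.trans h8)
  have e3 := Nat.pair_eq_pair.1 (h7.symm.trans h9)
  omega

theorem St_mono {G G' : ℕ → ℕ → Prop} (h : ∀ x y, G x y → G' x y) :
    ∀ (k : ℕ) (A : Finset ℕ), St G k A → St G' k A := by
  intro k
  induction k with
  | zero =>
    intro A hA
    exact hA
  | succ k ih =>
    rintro A ⟨β, C, P, h1, h2, h3, h4, h5⟩
    exact ⟨β, C, P, h1, fun i hi => ⟨(h2 i hi).1, ih _ (h2 i hi).2⟩, h3, h4,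
      fun i hi j hj hij x y a b c d => h _ _ (h5 i hi j hj hij x y a b c d)⟩

theorem t_E : S_E := by
  intro hT g hg k
  induction k with
  | zero =>
    intro N
    refine ⟨fun _ _ => False, {N}, N + 1, ?_, ?_, ?_, ?_, ?_⟩
    · intro a ha
      rw [Finset.mem_singleton] at ha
      omega
    · intro a ha b hb hab
      rw [Finset.mem_singleton] at ha hb
      omega
    · exact Finset.singleton_nonempty N
    · intro x y h
      exact h.elim
    · intro Q hQ
      rw [pow_zero, Finset.card_le_one]
      intro a ha b hb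
      by_contra hne
      rcases lt_or_gt_of_ne hne with h | h
      · exact hQ a ha b hb h
      · exact hQ b hb a ha h
  | succ k ih =>
    intro N
    choose G A B h1 h2 h3 h4 h5 using ih
    obtain ⟨n, n0, ns⟩ : ∃ n : ℕ → ℕ, n 0 = N ∧
        ∀ i, n (i + 1) = max (max (g (B (n i))) (B (n i))) (n i) + 1 :=
      ⟨fun i => Nat.rec N (fun _ m => max (max (g (B m)) (B m)) m + 1) i, rfl, fun i => rfl⟩
    have hB : ∀ i, B (n i) < n (i + 1) := fun i => by rw [ns]; omega
    have hgB : ∀ i, g (B (n i)) < n (i + 1) := fun i => by rw [ns]; omega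
    have hmono : StrictMono n := strictMono_nat_of_lt_succ (fun i => by rw [ns]; omega)
    obtain ⟨C, hC⟩ := hT (fun i => n (i + 1)) k
    have hbl : ∀ x, ∃ i, N ≤ x → n i ≤ x ∧ x < n (i + 1) := by
      intro x
      by_cases hx : N ≤ x
      · have hex : ∃ i, x < n i := ⟨x + 1, lt_of_lt_of_le (Nat.lt_succ_self x) hmono.le_apply⟩
        classical
        have hs := Nat.find_spec hex
        have hm : ∀ m, m < Nat.find hex → ¬ x < n m := fun m hm => Nat.find_min hex hm
        revert hs hm
        generalize Nat.find hex = i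
        intro hs hm
        cases i with
        | zero => rw [n0] at hs; omega
        | succ i => exact ⟨i, fun _ => ⟨not_lt.1 (hm i (Nat.lt_succ_self i)), hs⟩⟩
      · exact ⟨0, fun h => absurd h hx⟩
    choose bl hbl using hbl
    have hN : ∀ i, N ≤ n i := fun i => by rw [← n0]; exact hmono.monotone (Nat.zero_le i)
    have hbl' : ∀ i x, n i ≤ x → x < n (i + 1) → bl x = i := by
      intro i x hx1 hx2
      obtain ⟨b1, b2⟩ := hbl x ((hN i).trans hx1)
      have e1 : bl x < i + 1 := hmono.lt_iff_lt.1 (b1.trans_lt hx2)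
      have e2 : i < bl x + 1 := hmono.lt_iff_lt.1 (hx1.trans_lt b2)
      omega
    obtain ⟨M, hM⟩ : ∃ M, ∀ i ∈ C, n (i + 1) ≤ M :=
      ⟨n (C.sup id + 1), fun i hi => hmono.monotone
        (Nat.succ_le_succ (Finset.le_sup (f := id) hi))⟩
    have hmem : ∀ i ∈ C, ∀ a ∈ A (n i), n i ≤ a ∧ a < n (i + 1) := fun i _ a ha =>
      ⟨(h1 (n i) a ha).1, (h1 (n i) a ha).2.trans (hB i)⟩
    let G' : ℕ → ℕ → Prop := fun x y => N ≤ x ∧ x < y ∧ y < M ∧
      ((bl x = bl y ∧ G (n (bl x)) x y) ∨ Sft (bl x) (bl y))
    refine ⟨G', C.biUnion (fun i => A (n i)), M, ?_, ?_, ?_, ?_, ?_⟩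
    · intro a ha
      rw [Finset.mem_biUnion] at ha
      obtain ⟨i, hi, ha⟩ := ha
      have := hmem i hi a ha
      exact ⟨(hN i).trans this.1, this.2.trans_le (hM i hi)⟩
    · intro a ha b hb hab
      rw [Finset.mem_biUnion] at ha hb
      obtain ⟨i, hi, ha⟩ := ha
      obtain ⟨j, hj, hb⟩ := hb
      have e1 := hmem i hi a ha
      have e2 := hmem j hj b hb
      rcases lt_trichotomy i j with hij | hij | hij
      · have e3 : n (i + 1) ≤ n j := hmono.monotone hij
        have e4 : g a ≤ g (B (n i)) := hg (h1 (n i) a ha).2.le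
        have := hgB i
        omega
      · subst hij
        exact h2 (n i) a ha b hb hab
      · have e3 : n (j + 1) ≤ n i := hmono.monotone hij
        omega
    · refine ⟨fun i => n (i + 1), C, fun i => A (n i), hC, ?_, ?_, ?_, ?_⟩
      · intro i hi
        refine ⟨fun a ha => Finset.mem_biUnion.2 ⟨i, hi, ha⟩, St_mono ?_ k _ (h3 (n i))⟩
        intro x y hxy
        obtain ⟨f1, f2, f3⟩ := h4 (n i) x y hxy
        have f4 := hB i
        have ex : bl x = i := hbl' i x f1 (by omega)
        have ey : bl y = i := hbl' i y (by omega) (by omega)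
        have f5 := hM i hi
        refine ⟨(hN i).trans f1, f2, by omega, Or.inl ⟨ex.trans ey.symm, ?_⟩⟩
        rw [ex]
        exact hxy
      · intro i hi a ha
        exact (hmem i hi a ha).2.le
      · intro i hi j hj hij a ha b hb
        have e1 := hmem i hi a ha
        have e2 := hmem j hj b hb
        have e3 : n (i + 1) ≤ n j := hmono.monotone hij
        omega
      · rintro i hi j hj hij x y ⟨a, ha, hax⟩ ⟨a', ha', hax'⟩ ⟨b, hb, hby⟩ ⟨b', hb', hby'⟩
        have e1 := hmem i hi a ha
        have e2 := hmem i hi a' ha'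
        have e3 := hmem j hj b hb
        have e4 := hmem j hj b' hb'
        have e5 : n (i + 1) ≤ n j := hmono.monotone (sft_lt hij)
        have e6 := hM j hj
        have ex : bl x = i := hbl' i x (by omega) (by omega)
        have ey : bl y = j := hbl' j y (by omega) (by omega)
        have e7 := hN i
        refine ⟨by omega, by omega, by omega, Or.inr ?_⟩
        rw [ex, ey]
        exact hij
    · rintro x y ⟨g1, g2, g3, -⟩
      exact ⟨g1, g2, g3⟩
    · intro Q hQ
      have hcl : ∀ x ∈ Q, ∀ y ∈ Q, x < y → (bl x = bl y ∧ G (n (bl x)) x y) ∨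
          Sft (bl x) (bl y) := fun x hx y hy hxy => (hQ x hx y hy hxy).2.2.2
      have hfib : ∀ i ∈ Q.image bl, (Q.filter (fun x => bl x = i)).card ≤ 2 ^ k := by
        intro i _
        apply h5 (n i)
        intro x hx y hy hxy
        rw [Finset.mem_filter] at hx hy
        rcases hcl x hx.1 y hy.1 hxy with h | h
        · have := h.2
          rw [hx.2] at this
          exact this
        · have := sft_lt h
          rw [hx.2, hy.2] at this
          omega
      have himg : (Q.image bl).card ≤ 2 := by
        by_contra hcon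
        push Not at hcon
        obtain ⟨i, j, l, hi, hj, hl, hij, hil, hjl⟩ := Finset.two_lt_card_iff.1 hcon
        rw [Finset.mem_image] at hi hj hl
        obtain ⟨x, hx, rfl⟩ := hi
        obtain ⟨y, hy, rfl⟩ := hj
        obtain ⟨z, hz, rfl⟩ := hl
        have key : ∀ x ∈ Q, ∀ y ∈ Q, bl x ≠ bl y → Sft (bl x) (bl y) ∨ Sft (bl y) (bl x) := by
          intro x hx y hy hne
          rcases lt_trichotomy x y with h | h | h
          · rcases hcl x hx y hy h with h' | h'
            · exact absurd h'.1 hne
            · exact Or.inl h'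
          · exact absurd (by rw [h]) hne
          · rcases hcl y hy x hx h with h' | h'
            · exact absurd h'.1.symm hne
            · exact Or.inr h'
        rcases key x hx y hy hij with a | a <;> rcases key x hx z hz hil with b | b <;>
          rcases key y hy z hz hjl with c | c <;>
          first
            | exact sft_tri a c b
            | exact sft_tri b c a
            | exact sft_tri a b c
            | exact sft_tri c a b
            | exact sft_tri c b a
            | exact sft_tri b a c
            | (have := sft_lt a; have := sft_lt b; have := sft_lt c; omega)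
      have := Finset.card_le_mul_card_image Q _ hfib
      calc Q.card ≤ 2 ^ k * (Q.image bl).card := this
        _ ≤ 2 ^ k * 2 := Nat.mul_le_mul_left _ himg
        _ = 2 ^ (k + 1) := (pow_succ 2 k).symm

end Pool.Agent.U312.RC.E
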